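import Pool.Agent.C4F.StmtsM

/-!
# Squad C4U (MP_be2f05_lc): independent sets of size `k` in graphs without induced 4-cycles in time
`C_k (N + 1) ^ (k / 2 + c)`, `c` independent of `k`

`DecidesIn`, `C4FreeGraph`, `encGraph`, `HasIndep`, `Lt`, `Runs`, `cn`, `NumF` are those of the squad
C4F. `cn P n` is the number of `v < n` with `P v`.

THE ALGORITHM. (1) Local search: an independent set `J`, started with the empty set, is enlarged as
long as `J` has less than `k` elements and a pair `x, y` improves it (`Gr.Im`). If `J` has `k` elements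
the answer is yes. (2) Otherwise all vertices are in one of the cliques `Gr.Q a b`, `a, b ∈ J`. The
elements `x_0, …, x_(k-1)` of an independent set are in cliques number `0, …, k-1`, chosen by the
registers `c_0, …, c_(2k-1)`, and for `i < j` nonadjacency of `x_i`, `x_j` means `r < t` for two numbers
`r ≤ N` (of `x_i`), `t ≤ N + 1` (of `x_j`). There is exactly one `c` (the dyadic node, in the register
number `ix i j`) with `c - o c ≤ r < c ≤ t < c + o c`, `o c` = largest power of two dividing `c`.
Backtracking over the registers; a partial choice is `Ok` if for every `i` SEPARATELY there is an `x_i`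
compatible with all registers chosen so far. (3) The number of partial choices which are `Ok` is at most
`k ^ (2 k)` times the square root of the product over `i` of `(N + 1) (log_2 (N + 1) + 1) ^ k`
(Cauchy-Schwarz; every register belongs to exactly two `i`). Every step of the search is one step of a
fixed polynomial-time generator.
-/

set_option autoImplicit false

namespace Pool.Agent.C4U

open Pool.Agent.C4F (Lt cn NumF)

/-! ## Dyadic nodes -/

/-- `c` is an odd multiple of `d` -/
def Od (d c : ℕ) : Prop := ∃ e < c + 1, c = d * (2 * e + 1)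

/-- for `c ≥ 1`: the largest power of two dividing `c`, that is the least `d` with `Od d c` -/
noncomputable def o (c : ℕ) : ℕ := cn (fun v => ∀ d < v + 1, ¬ Od d c) c

/-- `r` is in the left half of the node `c` -/
def Lf (c r : ℕ) : Prop := r < c ∧ c ≤ r + o c

/-- `t` is in the right half of the node `c` -/
def Rt (c t : ℕ) : Prop := c ≤ t ∧ t < c + o c

/-! ## Registers and backtracking -/

/-- the first `n` registers -/
def pre (n : ℕ) (c : ℕ → ℕ) : ℕ → ℕ := fun e => if e < n then c e else 0

/-- number of registers in use: the registers `0, …, ln - 1` are positive -/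
noncomputable def ln (D : ℕ) (c : ℕ → ℕ) : ℕ := cn (fun e => ∀ e' < e + 1, 1 ≤ c e') D

/-- `m + 1` where `m` is the last used register with `c m < B`, and `0` if there is none -/
noncomputable def mm (D B : ℕ) (c : ℕ → ℕ) : ℕ := cn (fun e => ∃ e' < ln D c, e ≤ e' ∧ c e' < B) D

/-- a state of the registers: some first registers have values `1, …, B`, the others are `0` -/
def IsSt (D B : ℕ) (c : ℕ → ℕ) : Prop :=
  ∃ l ≤ D, (∀ e < l, 1 ≤ c e ∧ c e ≤ B) ∧ ∀ e, l ≤ e → c e = 0

open Classical in
/-- the next state: if `G` (the state is good) use one register more, with the value `1`; otherwise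
increase the last register which is smaller than `B` and clear the registers after it -/
noncomputable def nx (D B : ℕ) (G : Prop) (c : ℕ → ℕ) : ℕ → ℕ := fun e =>
  if G then (if e = ln D c then 1 else c e)
  else if e + 1 < mm D B c then c e else if e + 1 = mm D B c then c e + 1 else 0

/-- the search goes on -/
def Cont (D B : ℕ) (G : Prop) (c : ℕ → ℕ) : Prop := (G ∧ ln D c < D) ∨ (¬ G ∧ 0 < mm D B c)

/-! ## The graph -/

/-- The number `k`, a graph on the vertices `0, …, N-1`, and a set `J` of vertices. -/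
structure Gr where
  k : ℕ
  N : ℕ
  A : ℕ → ℕ → Prop
  J : ℕ → Prop

namespace Gr

variable (V : Gr)

/-- the graph is a simple graph on `0, …, N-1` without induced 4-cycle -/
structure Ok4 : Prop where
  rng : ∀ x y, V.A x y → x < V.N ∧ y < V.N
  symm : ∀ x y, V.A x y → V.A y x
  irr : ∀ x, ¬ V.A x x
  free : ∀ a b c d, V.A a b → V.A b c → V.A c d → V.A d a → ¬ V.A a c → ¬ V.A b d → a ≠ c → b = d

/-- `J` is an independent set -/
def JInd : Prop := (∀ x, V.J x → x < V.N) ∧ ∀ x y, V.J x → V.J y → ¬ V.A x y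

/-- `y` is `x` or a neighbour of `x` -/
def Cl (x y : ℕ) : Prop := x = y ∨ V.A x y

/-- there are `k` pairwise different and nonadjacent vertices -/
def Ind : Prop := ∃ x : ℕ → ℕ, (∀ i < V.k, x i < V.N) ∧ ∀ j < V.k, ∀ i < j, ¬ V.Cl (x i) (x j)

/-! ### Local search -/

/-- the pair `x, y` improves `J`: `x = y` is not in `J` and has no neighbour in `J`, or `x`, `y` are
different and nonadjacent and `N[x] ∩ J = N[y] ∩ J = {a}` for some `a` -/
def Im (x y : ℕ) : Prop :=
  x < V.N ∧ y < V.N ∧ ((x = y ∧ ∀ u < V.N, V.J u → ¬ V.Cl x u) ∨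
    (¬ V.Cl x y ∧ ∃ a < V.N, V.J a ∧
      ∀ u < V.N, V.J u → ((V.Cl x u ↔ u = a) ∧ (V.Cl y u ↔ u = a))))

/-- the new set `J`: add `x` and `y`, remove the neighbours of `x` -/
def J1 (x y w : ℕ) : Prop := w = x ∨ w = y ∨ (V.J w ∧ ¬ V.Cl x w)

/-- the number of the first improving pair, where the pair `x, y` has the number `x N + y`; `N ^ 2` if
there is none -/
noncomputable def ps : ℕ := cn (fun p => ∀ q < p + 1, ¬ V.Im (q / V.N) (q % V.N)) (V.N * V.N)

/-- `J` can be improved -/
def Impr : Prop := V.ps < V.N * V.N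

/-- the set `J` after the improvement by the first improving pair -/
def J2 (w : ℕ) : Prop := V.J1 (V.ps / V.N) (V.ps % V.N) w

/-! ### Cliques -/

/-- the clique `Q a b`: for `a ≠ b` in `J` the common neighbours of `a` and `b`, for `a = b` the
vertices `v` with `N[v] ∩ J = {a}` -/
def Q (a b v : ℕ) : Prop :=
  v < V.N ∧ V.Cl v a ∧ V.Cl v b ∧ (a = b → ∀ u < V.N, V.J u → V.Cl v u → u = a)

/-- `|N[x] ∩ R|` -/
noncomputable def rr (R : ℕ → Prop) (x : ℕ) : ℕ := cn (fun y => R y ∧ V.Cl x y) V.N

/-- the least `rr R x`, `x ∈ P ∩ N[y]`, and `N + 1` if `P ∩ N[y]` is empty -/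
noncomputable def tt (P R : ℕ → Prop) (y : ℕ) : ℕ :=
  cn (fun v => ∀ x < V.N, P x → V.Cl x y → v < V.rr R x) (V.N + 1)

/-- number of registers -/
def dd : ℕ := 2 * V.k + V.k * (V.k - 1) / 2

/-- number of the register of the pair `i < j` -/
def ix (i j : ℕ) : ℕ := 2 * V.k + (j * (j - 1) / 2 + i)

/-- the clique number `i` -/
def K (c : ℕ → ℕ) (i v : ℕ) : Prop := V.Q (c (2 * i) - 1) (c (2 * i + 1) - 1) v

/-- `|N[x] ∩ K j|` -/
noncomputable def r (c : ℕ → ℕ) (j x : ℕ) : ℕ := V.rr (V.K c j) x

/-- the threshold of `y ∈ K j` with respect to `K i` -/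
noncomputable def t (c : ℕ → ℕ) (i j y : ℕ) : ℕ := V.tt (V.K c i) (V.K c j) y

/-- the state `c` of the registers is good -/
def Ok (c : ℕ → ℕ) : Prop :=
  (∀ e < ln V.dd c, e < 2 * V.k → c e ≤ V.N ∧ V.J (c e - 1)) ∧
  (2 * V.k ≤ ln V.dd c → ∀ i < V.k, ∃ x < V.N, V.K c i x ∧
    (∀ j < V.k, i < j → V.ix i j < ln V.dd c → Lf (c (V.ix i j)) (V.r c j x)) ∧
    (∀ j < V.k, j < i → V.ix j i < ln V.dd c → Rt (c (V.ix j i)) (V.t c j i x)))

/-! ### One step -/

open Classical in
/-- the new set `J` -/
noncomputable def nV : Gr := if V.Impr then { V with J := V.J2 } else V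

open Classical in
/-- the new registers -/
noncomputable def nC (c : ℕ → ℕ) : ℕ → ℕ := if V.Impr then c else nx V.dd (V.N + 1) (V.Ok c) c

/-- the algorithm goes on -/
def Tc (c : ℕ → ℕ) : Prop :=
  ¬ V.k ≤ cn V.J V.N ∧ (V.Impr ∨ Cont V.dd (V.N + 1) (V.Ok c) c)

/-- the answer is yes -/
def Acc (c : ℕ → ℕ) : Prop := V.k ≤ cn V.J V.N ∨ V.Ok c

/-- the bound for the number of partial choices -/
def X : ℕ := Nat.sqrt (V.k ^ (4 * V.k) * ((V.N + 1) * (Nat.log 2 (V.N + 1) + 1) ^ V.k) ^ V.k)

end Gr

/-! ## Words -/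

/-- the graph written in five words: `1^k`, `1^N`, the adjacency matrix (`pos` or `neg`), the set `J`,
the registers -/
def rd (w : Fin 5 → List Lt) : Gr where
  k := (w 0).length
  N := (w 1).length
  A := fun x y => x < (w 1).length ∧ y < (w 1).length ∧
    (w 2)[x * (w 1).length + y]? = some Lt.pos
  J := fun x => (w 3)[x]? = some Lt.pos

/-- the registers: the register `e` is the number of ticks in the block number `e` of length `N + 1` -/
noncomputable def rc (w : Fin 5 → List Lt) (e : ℕ) : ℕ :=
  cn (fun u => (w 4)[e * ((w 1).length + 1) + u]? = some Lt.tick) ((w 1).length + 1)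

open Classical in
/-- the word of a set -/
noncomputable def jw (N : ℕ) (J : ℕ → Prop) : List Lt :=
  (List.range N).map fun v => if J v then Lt.pos else Lt.neg

/-- the word of the registers -/
def cw (D B : ℕ) (c : ℕ → ℕ) : List Lt :=
  (List.range D).flatMap fun e => (List.range B).map fun u => if u < c e then Lt.tick else Lt.neg

/-- the five words of a state -/
noncomputable def sw (V : Gr) (m : List Lt) (c : ℕ → ℕ) : Fin 5 → List Lt :=
  ![List.replicate V.k Lt.tick, List.replicate V.N Lt.tick, m, jw V.N V.J, cw V.dd (V.N + 1) c]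

/-- `m` is the word of the adjacency matrix -/
def IsMat (V : Gr) (m : List Lt) : Prop :=
  m.length = V.N * V.N ∧ (∀ c ∈ m, c = Lt.pos ∨ c = Lt.neg) ∧
    ∀ x < V.N, ∀ y < V.N, m[x * V.N + y]? = some Lt.pos ↔ V.A x y

/-- five words as one word -/
def jn (w : Fin 5 → List Lt) : List Lt :=
  w 0 ++ Lt.bar :: (w 1 ++ Lt.bar :: (w 2 ++ Lt.bar :: (w 3 ++ Lt.bar :: w 4)))

/-- no bars in the first four words -/
def NoBar (w : Fin 5 → List Lt) : Prop := ∀ i : Fin 5, i ≠ 4 → Lt.bar ∉ w i

/-- the next state, as words -/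
noncomputable def nw (w : Fin 5 → List Lt) : Fin 5 → List Lt :=
  ![w 0, w 1, w 2, jw (rd w).N (rd w).nV.J, cw (rd w).dd ((rd w).N + 1) ((rd w).nC (rc w))]

open Classical in
/-- the answer -/
noncomputable def ow (w : Fin 5 → List Lt) : List Lt := if (rd w).Acc (rc w) then [Lt.pos] else [Lt.neg]

/-- the five words with numbers `e 0, …, e 4` -/
def At {r : ℕ} (e : Fin 5 → Fin r) (ρ : Fin r → List Lt) : Fin 5 → List Lt := fun i => ρ (e i)

/-- the graph of a `C4FreeGraph`, with a set `J` -/
def grOf (k : ℕ) (x : Pool.Agent.C4F.C4FreeGraph) (J : ℕ → Prop) : Gr where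
  k := k
  N := x.N
  A := fun u v => ∃ (hu : u < x.N) (hv : v < x.N), x.G.Adj ⟨u, hu⟩ ⟨v, hv⟩
  J := J

end Pool.Agent.C4U
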