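import Pool.Agent.C4U.Defs

/-!
# Squad C4U, statements of the rows

Every row is a `def XxxStmt : Prop` with a complete proof in its docstring. `cn P n = Nat.count P n`
(classical decidability); if `P` is closed downwards, `cn P n` is the least `v` with `¬ P v`, or `n`.
-/

set_option autoImplicit false

namespace Pool.Agent.C4U

open Pool.Agent.C4F (Lt cn NumF Runs DecidesIn C4FreeGraph encGraph HasIndep Kit)
open Pool.Agent.Helper53_CookLevin (PGen)
open Pool.Agent.Helper53_Chan (Test)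
open Turing

/-! ## General facts -/

/-- CNL (easy). Counting of an initial segment: `Nat.count` of a downward closed predicate; induction on
`n` (`Nat.count_succ`). (1): the value is at most `n`; (2): below the value `P` holds; (3): if the value is
less than `n`, then `P` fails at it; (4): a predicate which is `v < m` for `v < n` has the count
`min m n`. -/
def CnlStmt : Prop :=
  (∀ (P : ℕ → Prop) (n : ℕ), cn P n ≤ n) ∧
  (∀ (P : ℕ → Prop) (n : ℕ), (∀ u v, u ≤ v → P v → P u) → (∀ v < cn P n, P v) ∧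
    (cn P n < n → ¬ P (cn P n))) ∧
  (∀ (P : ℕ → Prop) (n m : ℕ), (∀ v < n, (P v ↔ v < m)) → cn P n = min m n) ∧
  (∀ (P Q : ℕ → Prop) (n : ℕ), (∀ v < n, (P v ↔ Q v)) → cn P n = cn Q n) ∧
  (∀ (P Q : ℕ → Prop) (n : ℕ), (∀ v < n, P v → Q v) → cn P n ≤ cn Q n)

/-- OPW (easy-medium; uses CNL). `o (2 ^ s (2 e + 1)) = 2 ^ s`: `Od d c` fails for `d < 2 ^ s`, since
`2 ^ s (2 e + 1) = d (2 f + 1)` gives `2 ^ s ∣ d` (`Nat.Coprime.dvd_of_dvd_mul_right`, `2 ^ s` is prime to
`2 f + 1`) and `d > 0`; it holds for `d = 2 ^ s`. So the predicate counted by `o` is `v < 2 ^ s`, and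
`2 ^ s ≤ c`. -/
def OpwStmt : Prop := ∀ s e : ℕ, o (2 ^ s * (2 * e + 1)) = 2 ^ s

/-- DYE (medium; uses OPW). Existence of the node. Take `c` with `r < c ≤ t` whose exponent
`padicValNat 2 c` is maximal (a finite nonempty set, `Finset.exists_max_image`), `c = 2 ^ s (2 e + 1)`
(`Nat.exists_eq_two_pow_mul_odd`), `o c = 2 ^ s`. If `r + 2 ^ s < c` then `c - 2 ^ s = 2 ^ s (2 e) > r`
is in the range, positive and divisible by `2 ^ (s + 1)`, contradiction. If `c + 2 ^ s ≤ t` then
`c + 2 ^ s = 2 ^ s (2 e + 2)` is in the range and divisible by `2 ^ (s + 1)`, contradiction. -/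
def DyeStmt : Prop := ∀ r t : ℕ, r < t → ∃ c, 1 ≤ c ∧ c ≤ t ∧ Lf c r ∧ Rt c t

/-- DYN (medium; uses OPW). For a given `r` (or `t`) there are at most `log_2 B + 1` nodes `c` in
`1, …, B` with `r` in the left half (`t` in the right half): the map `c ↦ s`, where
`c = 2 ^ s (2 e + 1)`, has values `≤ log_2 B` (`2 ^ s ≤ c ≤ B`, `Nat.le_log_of_pow_le`) and is injective on
these `c`: `2 ^ s (2 e) ≤ r < 2 ^ s (2 e + 1)` gives `r / 2 ^ s = 2 e`, and
`2 ^ s (2 e + 1) ≤ t < 2 ^ s (2 e + 2)` gives `t / 2 ^ s = 2 e + 1`. Injection into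
`Finset.range (log_2 B + 1)`. -/
def DynStmt : Prop :=
  ∀ (B z : ℕ) (S : Finset ℕ), (∀ c ∈ S, 1 ≤ c ∧ c ≤ B) →
    ((∀ c ∈ S, Lf c z) ∨ (∀ c ∈ S, Rt c z)) → S.card ≤ Nat.log 2 B + 1

/-- STL (easy-medium; uses CNL). For a state with length `l`: `ln D c = l`; the length of `pre n c` is
`min n l` and `pre n c` is a state. Also `nx` of a state of length `l` in closed form: if `l < D` and the
state is good, the new state has length `l + 1`, agrees with `c` below `l` and has the value `1` at `l`;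
if it is not good and `0 < mm`, there is `m < l` with `c m < B`, `c e ≥ B` for `m < e < l`, and the new
state has length `m + 1`, agrees with `c` below `m` and has the value `c m + 1` at `m`. Proof: the
predicates counted in `ln`, `mm` are closed downwards and have the values `l`, `m + 1`. -/
def StlStmt : Prop :=
  ∀ (D B : ℕ) (c : ℕ → ℕ), 1 ≤ B → IsSt D B c →
    ln D c ≤ D ∧ (∀ e < ln D c, 1 ≤ c e ∧ c e ≤ B) ∧ (∀ e, ln D c ≤ e → c e = 0) ∧
    (∀ n, IsSt D B (pre n c) ∧ ln D (pre n c) = min n (ln D c)) ∧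
    (∀ G : Prop, G → ln D c < D → IsSt D B (nx D B G c) ∧ ln D (nx D B G c) = ln D c + 1 ∧
      pre (ln D c) (nx D B G c) = c ∧ nx D B G c (ln D c) = 1) ∧
    (∀ G : Prop, ¬ G → 0 < mm D B c → ∃ m < ln D c, c m < B ∧ (∀ e, m < e → e < ln D c → B ≤ c e) ∧
      IsSt D B (nx D B G c) ∧ ln D (nx D B G c) = m + 1 ∧
      pre m (nx D B G c) = pre m c ∧ nx D B G c m = c m + 1) ∧
    (∀ e < ln D c, c e < B → 0 < mm D B c)

/-- DFS (medium-strong; uses STL). Backtracking. Let `z 0 = 0`, `z (j + 1) = nx (z j)`, and let `T` be the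
first `j` with `¬ Cont`. LEXICOGRAPHIC ORDER: `c ≺ c'` if for some `m`, `c e = c' e` for `e < m` and
`c m < c' m` (transitive, irreflexive). By STL every step increases: `c ≺ nx c` (at `m = ln c`, where
`0 < 1`, resp. at `m`). So the states `z 0, z 1, …` are pairwise different, and there are finitely many
states (functions with values `≤ B` and support in `0, …, D-1`), hence `T` exists.
INVARIANT 1: for every state `z j` of length `l ≥ 1` the state `pre (l - 1) (z j)` is good (in the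
first kind of step it is the old state; in the second kind it is `pre m` of the old state, `m < l`,
and `pre m (pre (l-1) c) = pre m c` is good by the prefix closure, if `m ≤ l - 1`). Number of such
states of length `l`: `c ↦ (pre (l - 1) c, c (l - 1))` is injective, so at most `X B`. So
`T + 1 ≤ 1 + D (X B)`.
INVARIANT 2, if `g` is a good state of length `D` (all `pre n g` are good): every `z j`, `j ≤ T`, satisfies
`z j = pre (ln (z j)) g` or `z j ≺ g`. Step of the first kind: `pre (l+1)` of the new state: if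
`z j = pre l g`, the new value `1` at `l` is at most `g l`: either equality (prefix of `g`) or `≺`.
If `z j ≺ g` at `m < l` (`m < l`, because `z j m ≥ …`: at `m ≥ l` the state is `0` there and
`z j = pre l g`), nothing changes. Step of the second kind: `z j` is not good, so it is not a prefix of `g`,
so `z j ≺ g` at some `m' < l` with `z j m' < g m' ≤ B`, so `m ≥ m'` for the increased register `m`; if
`m > m'` nothing changes, if `m = m'` then `z j m + 1 ≤ g m`: a prefix or `≺`. At `j = T`: if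
`z T` were not good, it would not be a prefix of `g`, so `z T m' < g m' ≤ B` for some `m' < l`, so `0 < mm` and
`Cont`: contradiction. So `z T` is good. Conversely if `z T` is good, then `¬ Cont` says that its length
is `D`. -/
def DfsStmt : Prop :=
  ∀ (Good : (ℕ → ℕ) → Prop) (D B X : ℕ), 1 ≤ B → 1 ≤ X → Good (fun _ => 0) →
    (∀ c n, IsSt D B c → Good c → Good (pre n c)) →
    (∀ l < D, {c | IsSt D B c ∧ ln D c = l ∧ Good c}.ncard ≤ X) →
    ∃ (T : ℕ) (z : ℕ → ℕ → ℕ), z 0 = (fun _ => 0) ∧ T ≤ D * (X * B) ∧ (∀ j ≤ T, IsSt D B (z j)) ∧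
      (∀ j < T, Cont D B (Good (z j)) (z j) ∧ z (j + 1) = nx D B (Good (z j)) (z j)) ∧
      ¬ Cont D B (Good (z T)) (z T) ∧
      (Good (z T) ↔ ∃ c, IsSt D B c ∧ ln D c = D ∧ Good c)

/-! ## The graph -/

/-- IMP (easy-medium). An improving pair increases `J` by one element and keeps it independent. First
kind: `x` has no neighbour in `J`, `J1 = J ∪ {x}`. Second kind: `J1 = (J - {a}) ∪ {x, y}`, because
`Cl x w ↔ w = a` for `w ∈ J`; `x, y ∉ J` (if `x ∈ J` then `x = a` by `Cl x x`, so `Cl y x`, and by symmetry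
`Cl x y`, contradiction; similarly `y`), `x ≠ y`, and `x`, `y` have no neighbour in `J - {a}`. Cardinality:
`cn P N` is the cardinality of `{v < N | P v}` (`Nat.count_eq_card_filter_range`). -/
def ImpStmt : Prop :=
  ∀ V : Gr, V.Ok4 → V.JInd → ∀ x y, V.Im x y →
    ({ V with J := V.J1 x y } : Gr).JInd ∧ cn (V.J1 x y) V.N = cn V.J V.N + 1

/-- PSI (easy; uses CNL). `ps` is the first `q < N ^ 2` with `Im (q / N) (q % N)`. If no pair is
improving then `ps = N ^ 2`; if `x, y` is improving then `q = x N + y < N ^ 2` has `q / N = x`,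
`q % N = y`. -/
def PsiStmt : Prop :=
  ∀ V : Gr, (V.Impr → V.Im (V.ps / V.N) (V.ps % V.N)) ∧ (¬ V.Impr → ∀ x y, ¬ V.Im x y)

/-- CLQ (easy). If no pair improves `J`, then `Q a b` is a clique for `a, b ∈ J`. Case `a ≠ b`: `a`, `b` are
not adjacent; `x, y ∈ Q a b` are different from `a` and `b` (`x = a` would give `Cl a b`), so adjacent to
`a` and `b`; if `¬ Cl x y` then `a, x, b, y` is an induced 4-cycle (`Ok4.free a x b y`). Case `a = b`: if
`¬ Cl x y` then the pair `x, y` is improving, with this `a`. -/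
def ClqStmt : Prop :=
  ∀ V : Gr, V.Ok4 → V.JInd → (∀ x y, ¬ V.Im x y) → ∀ a b, V.J a → V.J b →
    ∀ x y, V.Q a b x → V.Q a b y → V.Cl x y

/-- COV (easy). If no pair improves `J`, every vertex is in some `Q a b`: `v, v` is not improving, so
`Cl v a` for some `a ∈ J`; if there is another `b ∈ J`, `b ≠ a`, with `Cl v b`, then `v ∈ Q a b`; otherwise
`v ∈ Q a a`. -/
def CovStmt : Prop :=
  ∀ V : Gr, (∀ x y, ¬ V.Im x y) → ∀ v < V.N, ∃ a b, a < V.N ∧ b < V.N ∧ V.J a ∧ V.J b ∧ V.Q a b v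

/-- NST (medium; uses CNL). Between two cliques (which may overlap or be equal) adjacency is given by
thresholds. NESTED: for `x, x' ∈ P` the sets `N[x] ∩ R`, `N[x'] ∩ R` are comparable: if
`y ∈ R ∩ N[x]`, `y ∉ N[x']` and `y' ∈ R ∩ N[x']`, `y' ∉ N[x]`, then `y ≠ x` (otherwise `y' ∈ R` and `y = x ∈ R`
would give `Cl x y'`), `y' ≠ x'` (in the same way), `y ≠ x'`, `y' ≠ x`, `x ≠ x'`, `y ≠ y'`, so `x, y, y', x'` is
an induced 4-cycle: `A x y`, `A y y'` (clique `R`), `A y' x'`, `A x' x` (clique `P`), `¬ A x y'`, `¬ A y x'`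
and `x ≠ y'`: `Ok4.free x y y' x'` gives `y = x'`, contradiction. So `rr R x ≥ rr R x'` implies
`N[x'] ∩ R ⊆ N[x] ∩ R`. THRESHOLD: `tt P R y` is the least `rr R x'` over `x' ∈ P` with `Cl x' y` (and `N + 1`
if there is none). If `Cl x y` then `tt P R y ≤ rr R x` (the predicate in `tt` fails at `v = rr R x`).
Conversely if `tt P R y ≤ rr R x ≤ N` then `tt P R y < N + 1`, so the predicate fails at `v = tt P R y`: there is
`x' ∈ P`, `Cl x' y`, `rr R x' ≤ tt P R y ≤ rr R x`, hence `y ∈ N[x'] ∩ R ⊆ N[x] ∩ R`. -/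
def NstStmt : Prop :=
  ∀ V : Gr, V.Ok4 → ∀ P R : ℕ → Prop, (∀ x, P x → x < V.N) → (∀ x, R x → x < V.N) →
    (∀ x y, P x → P y → V.Cl x y) → (∀ x y, R x → R y → V.Cl x y) →
    ∀ x y, P x → R y → (V.Cl x y ↔ V.tt P R y ≤ V.rr R x)

/-- NSB (easy; uses CNL). Bounds, and the easy direction of NST, which does not use that the graph has no
induced 4-cycle. -/
def NsbStmt : Prop :=
  ∀ (V : Gr) (P R : ℕ → Prop), (∀ x, V.rr R x ≤ V.N) ∧ (∀ y, V.tt P R y ≤ V.N + 1) ∧
    ∀ x y, x < V.N → P x → V.Cl x y → V.tt P R y ≤ V.rr R x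

/-- PRS (easy-medium). The numbers of the pairs `i < j`: with `τ j = j (j - 1) / 2` one has
`τ (j + 1) = τ j + j` (`Finset.sum_range_id` or `Nat.triangle_succ`), so `τ j + i < τ (j + 1)` for `i < j`,
and `τ` is monotone. `b e` = greatest `j` with `τ j ≤ e` (`Nat.findGreatest`), `a e = e - τ (b e)`. -/
def PrsStmt : Prop :=
  ∃ a b : ℕ → ℕ, (∀ i j, i < j → a (j * (j - 1) / 2 + i) = i ∧ b (j * (j - 1) / 2 + i) = j) ∧
    (∀ e, a e < b e ∧ b e * (b e - 1) / 2 + a e = e) ∧
    (∀ k i j, i < j → j < k → j * (j - 1) / 2 + i < k * (k - 1) / 2) ∧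
    (∀ k e, e < k * (k - 1) / 2 → b e < k)

/-- PRF (easy-medium; uses STL, PRS). Prefixes of good states are good. The first part: `pre n c` agrees
with `c` below its length `min n l`. The second part: `2 k ≤ min n l`, so the registers `0, …, 2k-1` and
the cliques, `r`, `t` are the same, and the conditions for `pre n c` concern registers below `min n l`. -/
def PrfStmt : Prop :=
  ∀ (V : Gr) (c : ℕ → ℕ) (n : ℕ), IsSt V.dd (V.N + 1) c → V.Ok c → V.Ok (pre n c)

/-- MAT (medium; uses CLQ, COV, NST, NSB, DYE, STL, PRS). If no pair improves `J`, there is a good state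
with all registers in use iff there are `k` pairwise different and nonadjacent vertices.
`→`: let `x_i ∈ K i` be the vertices of `Ok` (`2 k ≤ dd`). For `i < j < k` the register `c = c (ix i j)`
satisfies `r < c ≤ t` with `r = r c j x_i`, `t = t c i j x_j` (`Lf` from `x_i`, `Rt` from `x_j`), so `¬ Cl x_i x_j`
by NSB (`x_j ∈ K j` is not even needed).
`←`: `x_i ∈ Q (a_i) (b_i)` by COV; put `c (2 i) = a_i + 1`, `c (2 i + 1) = b_i + 1`. The cliques `K i` are
now `Q (a_i) (b_i)`. For `i < j < k` the vertices `x_i ∈ K i`, `x_j ∈ K j` are not `Cl`, so by NST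
(cliques: CLQ) `r c j x_i < t c i j x_j ≤ N + 1`, and DYE gives the value of the register `ix i j`, between
`1` and `N + 1` (the numbers `r`, `t` depend only on the registers `0, …, 2k-1`, so define first `c0` with
these registers, then `c`, and use `V.K c = V.K c0` etc.; a register number `e ≥ 2 k` is `ix (a (e - 2k)) (b (e - 2k))`
for the functions `a`, `b` of PRS). -/
def MatStmt : Prop :=
  ∀ V : Gr, V.Ok4 → V.JInd → (∀ x y, ¬ V.Im x y) →
    ((∃ c, IsSt V.dd (V.N + 1) c ∧ ln V.dd c = V.dd ∧ V.Ok c) ↔ V.Ind)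

/-! ## Counting -/

/-- CSL (medium). Cauchy-Schwarz for functions with `m` coordinates, every coordinate `e` belonging to
exactly two of the numbers `i < k`, namely `a e` and `b e`. Induction on `m`. `m = 0`: `S` has at most one
element; if it is not empty all factors are `1`. Step: for `v : ℕ` let
`S_v = {Function.update f m 0 | f ∈ S, f m = v}` (as many elements as `f ∈ S` with `f m = v`; coordinates
`< m`), let `V` be the finite set of the values `f m`. Let `p_i(S)` be the cardinality of the image of `S`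
under the mask `i`. For `i ≠ a m, b m`: `p_i(S_v) ≤ p_i(S)` (the masked functions of `S_v` are masked
functions of `S`). For `i = a m` or `i = b m`: `∑_v p_i(S_v) ≤ p_i(S)` (masked functions of `S` with
different value at `m` are different, and masked `f` determines masked `update f m 0`). By induction
`|S_v| ≤ √(p_a(S_v) p_b(S_v)) √(∏_(i ≠ a, b) p_i(S))`, and
`∑_v √(p_a(S_v) p_b(S_v)) ≤ √(∑_v p_a(S_v)) √(∑_v p_b(S_v)) ≤ √(p_a(S) p_b(S))`
(`Real.sum_sqrt_mul_sqrt_le` or `Finset.sum_mul_sq_le_sq_mul_sq`). -/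
def CslStmt : Prop :=
  ∀ (k m : ℕ) (a b : ℕ → ℕ) (S : Finset (ℕ → ℕ)),
    (∀ e < m, a e < k ∧ b e < k ∧ a e ≠ b e) → (∀ f ∈ S, ∀ e, m ≤ e → f e = 0) →
    S.card ^ 2 ≤ ∏ i ∈ Finset.range k,
      (Set.ncard ((fun f : ℕ → ℕ => fun e => if a e = i ∨ b e = i then f e else 0) '' (S : Set (ℕ → ℕ))))

/-- BOX (easy). Functions with coordinates `f e ∈ C e` for `e < m` and `0` elsewhere: at most
`∏ |C e|`. Injection into `(Finset.range m).pi C` or induction on `m`. -/
def BoxStmt : Prop :=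
  ∀ (m : ℕ) (C : ℕ → Finset ℕ) (S : Set (ℕ → ℕ)),
    (∀ f ∈ S, (∀ e < m, f e ∈ C e) ∧ ∀ e, m ≤ e → f e = 0) →
    S.Finite ∧ S.ncard ≤ ∏ e ∈ Finset.range m, (C e).card

/-- DEG (easy; uses nothing, but see PRS). For the functions `a`, `b` of PRS: at most `k` numbers
`e < m`, `m ≤ k (k - 1) / 2`, have `a e = i` or `b e = i` (`i < k`): `e` is determined by the other element
of the pair, a number `< k`. -/
def DegStmt : Prop :=
  ∀ (a b : ℕ → ℕ), (∀ e, a e < b e ∧ b e * (b e - 1) / 2 + a e = e) →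
    (∀ k e, e < k * (k - 1) / 2 → b e < k) → ∀ k m i, m ≤ k * (k - 1) / 2 →
      ((Finset.range m).filter fun e => a e = i ∨ b e = i).card ≤ k

/-- CN1 (medium-strong; uses CNL, STL, PRS, DYN, CSL, BOX, DEG). Good states with given first `2 k`
registers `κ`. If `l < 2 k` a state of length `l` with `pre (2 k) c = κ` is `κ`, so there is at most one.
Otherwise map `c` to `f_c e = c (2 k + e)`, injective on the set, `f_c e = 0` for `e ≥ m := l - 2 k`,
`m ≤ k (k-1)/2`. Apply CSL to the finite image `S` with the functions `a`, `b` of PRS. For `i < k`: the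
masked functions `f_c` are, for the vertex `x = x_i < N` of `Ok`, in the box with `C e = {0}` if
`a e ≠ i`, `b e ≠ i`, and otherwise `C e` = the nodes `v` in `1, …, N + 1` with `Lf v (r κ (b e) x)`
(if `a e = i`; then `2 k + e = ix i (b e)`), resp. `Rt v (t κ (a e) i x)` (if `b e = i`; then
`2 k + e = ix (a e) i`), because `K`, `r`, `t` depend only on `pre (2 k) c = κ`. `|C e| ≤ L = log_2 (N+1) + 1`
by DYN, so by BOX and DEG the box has at most `L ^ k` elements (`L ≥ 1`), and the union over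
`x < N` has at most `(N + 1) L ^ k`. The product over `i < k` is at most `((N + 1) L ^ k) ^ k`. -/
def Cn1Stmt : Prop :=
  ∀ (V : Gr) (κ : ℕ → ℕ) (l : ℕ),
    {c | IsSt V.dd (V.N + 1) c ∧ ln V.dd c = l ∧ V.Ok c ∧ pre (2 * V.k) c = κ}.Finite ∧
    {c | IsSt V.dd (V.N + 1) c ∧ ln V.dd c = l ∧ V.Ok c ∧ pre (2 * V.k) c = κ}.ncard ^ 2 ≤
      ((V.N + 1) * (Nat.log 2 (V.N + 1) + 1) ^ V.k) ^ V.k

/-- CNT (medium; uses CNL, STL, BOX, CN1). Number of good states. The functions `pre (2 k) c`, `c` good of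
length `l`: for `e < min l (2 k)` the value is in `{v + 1 | v < N, J v}`, a set with `cn J N < k` elements, so in
`{0} ∪ {v + 1 | v < N, J v}` with at most `k` elements for all `e < 2 k`; by BOX (with `m = 2 k`) there are at
most `k ^ (2 k)` of them. For each of them CN1 gives at most `√M` states, `M` = the right side of CN1. The
total is at most `k ^ (2 k) √M ` (as real numbers, or with `Nat.sqrt M`, `Nat.le_sqrt'`), and
`k ^ (2 k) * Nat.sqrt M ≤ Nat.sqrt (k ^ (4 k) M) = X`. -/
def CntStmt : Prop :=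
  ∀ V : Gr, cn V.J V.N < V.k → ∀ l : ℕ,
    {c | IsSt V.dd (V.N + 1) c ∧ ln V.dd c = l ∧ V.Ok c}.ncard ≤ V.X ∧ 1 ≤ V.X

/-- RUN (medium; uses IMP, PSI, PRF, MAT, CNT, DFS). The whole algorithm, started with `J = ∅` and all
registers `0`. First phase: as long as `cn J N < k` and `Impr`, `J` is replaced by `J2`; by IMP and PSI
`JInd` is kept and `cn J N` increases by one, so there are `T₁ ≤ k` such steps; the registers stay `0`.
If `cn J N = k` at the end: `¬ Tc`, and `Acc`, and `Ind` (enumerate the `k` elements of `J`: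
`Nat.nth V.J` or an equivalence with `Fin k`). Otherwise `¬ Impr`: no pair improves `J` (PSI), and the second
phase is DFS with `Good = V.Ok`, `D = dd`, `B = N + 1`, `X` (`Ok 0`: the length is `0`; the second part is only
for `2 k ≤ 0`, i.e. `k = 0`, which is empty). At its end `Acc ↔ Ok ↔ Ind` by DFS and MAT. `Ind` does not
depend on `J`. -/
def RunStmt : Prop :=
  ∀ V : Gr, V.Ok4 → (∀ x, ¬ V.J x) → ∃ (T : ℕ) (J : ℕ → ℕ → Prop) (c : ℕ → ℕ → ℕ),
    J 0 = V.J ∧ c 0 = (fun _ => 0) ∧ T ≤ V.k + V.dd * (V.X * (V.N + 1)) ∧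
    (∀ j ≤ T, ({ V with J := J j } : Gr).JInd ∧ IsSt V.dd (V.N + 1) (c j)) ∧
    (∀ j < T, ({ V with J := J j } : Gr).Tc (c j) ∧
      ({ V with J := J j } : Gr).nV = { V with J := J (j + 1) } ∧
      ({ V with J := J j } : Gr).nC (c j) = c (j + 1)) ∧
    ¬ ({ V with J := J T } : Gr).Tc (c T) ∧
    (({ V with J := J T } : Gr).Acc (c T) ↔ V.Ind)

/-! ## The programs -/

/-- PRE (easy; `morphComputable` of Helper32_Poly/Morphism.lean with `P = 1^k bar`, its time is
a polynomial of degree one). -/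
def PreStmt : Prop :=
  ∀ k : ℕ, ∃ (M : TM2ComputableAux Bool Lt) (c : ℕ), ∀ w : List Bool,
    Runs M w (List.replicate k Lt.tick ++ Lt.bar :: w.map (fun b => if b then Lt.pos else Lt.neg))
      (c * (w.length + 1))

/-- PRA (easy; from `Kit`). Numbers and conditions read from the five words. `rc` is
`Kit.cnt` with `Kit.look`. -/
def PraStmt : Prop :=
  Kit → ∀ (r : ℕ) (e : Fin 5 → Fin r),
    NumF r (fun ρ => (rd (At e ρ)).k) ∧ NumF r (fun ρ => (rd (At e ρ)).N) ∧
    NumF r (fun ρ => (rd (At e ρ)).dd) ∧ NumF r (fun ρ => cn (rd (At e ρ)).J (rd (At e ρ)).N) ∧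
    ∀ x y : (Fin r → List Lt) → ℕ, NumF r x → NumF r y →
      Test r (fun ρ => (rd (At e ρ)).A (x ρ) (y ρ)) ∧ Test r (fun ρ => (rd (At e ρ)).J (x ρ)) ∧
      Test r (fun ρ => (rd (At e ρ)).Cl (x ρ) (y ρ)) ∧ NumF r (fun ρ => rc (At e ρ) (x ρ)) ∧
      NumF r (fun ρ => (rd (At e ρ)).ix (x ρ) (y ρ))

/-- PRD (easy; from `Kit`). Dyadic nodes. -/
def PrdStmt : Prop :=
  Kit → ∀ (r : ℕ) (x y : (Fin r → List Lt) → ℕ), NumF r x → NumF r y →
    Test r (fun ρ => Od (x ρ) (y ρ)) ∧ NumF r (fun ρ => o (x ρ)) ∧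
    Test r (fun ρ => Lf (x ρ) (y ρ)) ∧ Test r (fun ρ => Rt (x ρ) (y ρ))

/-- PRQ (easy-medium; uses PRA). Cliques and thresholds. Inside a bounded quantifier replace `e` by
`fun i => (e i).succ` and the numbers by their renamings (see the rows TNM, TLK, TON of C4F,
Helper32_C4F/Tnm.lean, Helper75_C4F). -/
def PrqStmt : Prop :=
  Kit → ∀ (r : ℕ) (e : Fin 5 → Fin r) (i j x : (Fin r → List Lt) → ℕ), NumF r i → NumF r j →
    NumF r x →
    Test r (fun ρ => (rd (At e ρ)).K (rc (At e ρ)) (i ρ) (x ρ)) ∧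
    NumF r (fun ρ => (rd (At e ρ)).r (rc (At e ρ)) (j ρ) (x ρ)) ∧
    NumF r (fun ρ => (rd (At e ρ)).t (rc (At e ρ)) (i ρ) (j ρ) (x ρ))

/-- PRO (easy-medium; uses PRA, PRD, PRQ). Length, `mm`, good states. -/
def ProStmt : Prop :=
  Kit → ∀ (r : ℕ) (e : Fin 5 → Fin r),
    NumF r (fun ρ => ln (rd (At e ρ)).dd (rc (At e ρ))) ∧
    NumF r (fun ρ => mm (rd (At e ρ)).dd ((rd (At e ρ)).N + 1) (rc (At e ρ))) ∧
    Test r (fun ρ => (rd (At e ρ)).Ok (rc (At e ρ)))

/-- PRI (easy-medium; uses PRA). Local search. -/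
def PriStmt : Prop :=
  Kit → ∀ (r : ℕ) (e : Fin 5 → Fin r),
    Test r (fun ρ => (rd (At e ρ)).Impr) ∧
    ∀ x : (Fin r → List Lt) → ℕ, NumF r x → Test r (fun ρ => (rd (At e ρ)).nV.J (x ρ))

/-- PRN (medium; uses PRA, PRO, PRI). One step as a generator (the words `jw`, `cw` by `Kit.loop`, the case
distinctions by `Test.ite`, variables `w i` by `PGen.var`), the condition to go on, the answer. -/
def PrnStmt : Prop :=
  Kit → PGen 5 (fun w : Fin 5 → List Lt => jn (nw w)) ∧
    Test 5 (fun w : Fin 5 → List Lt => (rd w).Tc (rc w)) ∧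
    PGen 5 (fun w : Fin 5 → List Lt => ow w)

/-- SPL (easy; FldStmt = `C4F.H69.fld`, SubStmt = `C4F.H77.sub`, like `parts_gen`, `parts_eq`, `bgn` in
Helper69_C4F/Fld.lean; for a test apply the first part to the generator of the test). From five words to one
word. -/
def SplStmt : Prop :=
  (∀ Φ : (Fin 5 → List Lt) → List Lt, PGen 5 Φ →
    ∃ F : List Lt → List Lt, PGen 1 (fun ρ : Fin 1 → List Lt => F (ρ 0)) ∧
      ∀ w, NoBar w → F (jn w) = Φ w) ∧
  (∀ P : (Fin 5 → List Lt) → Prop, Test 5 P →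
    ∃ T : List Lt → Prop, Test 1 (fun ρ : Fin 1 → List Lt => T (ρ 0)) ∧
      ∀ w, NoBar w → (T (jn w) ↔ P w))

/-- INI (easy-medium; `Kit`, FldStmt). The first state: split the word at its bar into `u = 1^k` and the
matrix `m`, `N` = number of `v < |m|` with `(v + 1) ^ 2 ≤ |m|` (a number of the generators), write
`1^k bar 1^N bar m bar neg^N bar neg^(dd (N + 1))`. -/
def IniStmt : Prop :=
  ∃ G : List Lt → List Lt, PGen 1 (fun ρ : Fin 1 → List Lt => G (ρ 0)) ∧
    ∀ (V : Gr) (m : List Lt), (∀ x, ¬ V.J x) → IsMat V m →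
      G (List.replicate V.k Lt.tick ++ Lt.bar :: m) = jn (sw V m (fun _ => 0))

/-- SWR (easy-medium; uses CNL, STL). Reading the words of a state: `rd (sw V m c) = V`,
`rc (sw V m c) = c`, no bars, and the length. For `e < dd`, `u ≤ N` the letter number `e (N + 1) + u` of
`cw dd (N + 1) c` is a tick iff `u < c e`; for `e ≥ dd` there is no letter and `c e = 0`. -/
def SwrStmt : Prop :=
  ∀ (V : Gr) (m : List Lt) (c : ℕ → ℕ), V.Ok4 → V.JInd → IsMat V m → IsSt V.dd (V.N + 1) c →
    rd (sw V m c) = V ∧ rc (sw V m c) = c ∧ NoBar (sw V m c) ∧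
    (jn (sw V m c)).length = V.k + V.N + V.N * V.N + V.N + V.dd * (V.N + 1) + 4

/-- GRA (easy-medium). The graph of a `C4FreeGraph`: it has no induced 4-cycle (from four vertices
`a b c d` as in `Ok4.free` with `b ≠ d` build an embedding of `SimpleGraph.cycleGraph 4`, for instance with
`Fin 4 → Fin N`, `![a, b, c, d]`, `decide`-like case analysis), `Ind` is `HasIndep k`, and the
adjacency matrix. -/
def GraStmt : Prop :=
  ∀ (k : ℕ) (x : C4FreeGraph), (grOf k x (fun _ => False)).Ok4 ∧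
    ((grOf k x (fun _ => False)).Ind ↔ HasIndep k x) ∧
    IsMat (grOf k x (fun _ => False)) ((encGraph x).map fun b => if b then Lt.pos else Lt.neg)

/-! ## Estimates -/

/-- AN1 (easy). A polynomial of the length of a state is at most `C_k (N + 1) ^ d`, `d` independent of
`k`. -/
def An1Stmt : Prop :=
  ∀ P : Polynomial ℕ, ∃ d : ℕ, ∀ k : ℕ, ∃ C : ℝ, 0 ≤ C ∧ ∀ N : ℕ,
    ((P.eval (k + N + N * N + N + (2 * k + k * (k - 1) / 2) * (N + 1) + 4) : ℕ) : ℝ) ≤
      C * ((N : ℝ) + 1) ^ d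

/-- AN2 (easy-medium). The number of partial choices is at most `C_k (N + 1) ^ (k / 2 + 1)`: the square root of
`k ^ (4 k) (N + 1) ^ k L ^ (k ^ 2)` with `L = log_2 (N + 1) + 1`, and `L ^ (k ^ 2) ≤ C (N + 1) ^ 2`. -/
def An2Stmt : Prop :=
  ∀ k : ℕ, ∃ C : ℝ, 0 ≤ C ∧ ∀ N : ℕ,
    ((Nat.sqrt (k ^ (4 * k) * ((N + 1) * (Nat.log 2 (N + 1) + 1) ^ k) ^ k) : ℕ) : ℝ) ≤
      C * ((N : ℝ) + 1) ^ ((k : ℝ) / 2 + 1)

end Pool.Agent.C4U
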